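import Pool.Agent.K3h53.LT.Stm

/-!
# Brick PDE, part 1: gradients
-/

set_option autoImplicit false

open MeasureTheory Filter Topology Set
open scoped ENNReal NNReal ContDiff

namespace Pool.Agent.K3h66.LT

open Pool.Agent.Helper41.CE Pool.Agent.K3h53.LT

variable {d : ℕ}

/-- the linear form with the given partial derivatives -/
noncomputable def grd (G : Fin d → ℂ) : E d →L[ℝ] ℂ :=
  ∑ j, (EuclideanSpace.proj j : E d →L[ℝ] ℝ).smulRight (G j)

theorem grd_apply (G : Fin d → ℂ) (v : E d) : grd G v = ∑ j, ((v j : ℝ) : ℂ) * G j := by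
  unfold grd
  rw [_root_.sum_apply]
  refine Finset.sum_congr rfl fun j _ => ?_
  rw [ContinuousLinearMap.smulRight_apply, Complex.real_smul]
  rfl

theorem grd_single (G : Fin d → ℂ) (i : Fin d) : grd G (EuclideanSpace.single i 1) = G i := by
  rw [grd_apply, Finset.sum_eq_single i]
  · simp
  · intro j _ hj
    simp [hj]
  · intro h
    exact absurd (Finset.mem_univ i) h

/-- `G` is the gradient of `F` at `x`. -/
def HG (F : E d → ℂ) (G : Fin d → ℂ) (x : E d) : Prop := HasFDerivAt F (grd G) x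

theorem HG.pd {F : E d → ℂ} {G : Fin d → ℂ} {x : E d} (h : HG F G x) (i : Fin d) :
    pd i F x = G i := by
  unfold Helper41.CE.pd
  rw [HasFDerivAt.fderiv h, grd_single]

theorem HG.diff {F : E d → ℂ} {G : Fin d → ℂ} {x : E d} (h : HG F G x) :
    DifferentiableAt ℝ F x := HasFDerivAt.differentiableAt h

theorem sum_single (v : E d) : v = ∑ j, v j • (EuclideanSpace.single j (1 : ℝ) : E d) := by
  ext k
  simp [Finset.sum_apply, Pi.single_apply]

theorem clm_eq_grd (L : E d →L[ℝ] ℂ) : L = grd fun j => L (EuclideanSpace.single j 1) := by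
  ext v
  rw [grd_apply]
  conv_lhs => rw [sum_single v]
  rw [map_sum]
  refine Finset.sum_congr rfl fun j _ => ?_
  rw [map_smul, Complex.real_smul]

theorem HG_of {F : E d → ℂ} {x : E d} (h : DifferentiableAt ℝ F x) :
    HG F (fun j => Helper41.CE.pd j F x) x := by
  have h1 := h.hasFDerivAt
  rw [clm_eq_grd (fderiv ℝ F x)] at h1
  exact h1

theorem HG.add {F F' : E d → ℂ} {G G' : Fin d → ℂ} {x : E d} (h : HG F G x) (h' : HG F' G' x) :
    HG (fun x => F x + F' x) (fun j => G j + G' j) x := by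
  have h1 : HasFDerivAt (fun x => F x + F' x) (grd G + grd G') x := HasFDerivAt.add h h'
  have h2 : grd (fun j => G j + G' j) = grd G + grd G' := by
    ext v
    rw [_root_.add_apply, grd_apply, grd_apply, grd_apply, ← Finset.sum_add_distrib]
    exact Finset.sum_congr rfl fun j _ => mul_add _ _ _
  unfold HG
  rw [h2]
  exact h1

theorem HG.mul {F F' : E d → ℂ} {G G' : Fin d → ℂ} {x : E d} (h : HG F G x) (h' : HG F' G' x) :
    HG (fun x => F x * F' x) (fun j => F x * G' j + G j * F' x) x := by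
  have h1 : HasFDerivAt (fun x => F x * F' x) (F x • grd G' + F' x • grd G) x :=
    HasFDerivAt.mul h h'
  have h2 : grd (fun j => F x * G' j + G j * F' x) = F x • grd G' + F' x • grd G := by
    ext v
    rw [_root_.add_apply, _root_.smul_apply,
      _root_.smul_apply, grd_apply, grd_apply, grd_apply, smul_eq_mul, smul_eq_mul,
      Finset.mul_sum, Finset.mul_sum, ← Finset.sum_add_distrib]
    exact Finset.sum_congr rfl fun j _ => by ring
  unfold HG
  rw [h2]
  exact h1

theorem HG_coord (i : Fin d) (x : E d) :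
    HG (fun x : E d => ((x i : ℝ) : ℂ)) (fun j => if j = i then 1 else 0) x := by
  have h1 : HasFDerivAt (fun x : E d => ((x i : ℝ) : ℂ))
      (Complex.ofRealCLM.comp (EuclideanSpace.proj i : E d →L[ℝ] ℝ)) x :=
    (Complex.ofRealCLM.comp (EuclideanSpace.proj i : E d →L[ℝ] ℝ)).hasFDerivAt
  have h2 : grd (fun j => if j = i then (1 : ℂ) else 0) =
      Complex.ofRealCLM.comp (EuclideanSpace.proj i : E d →L[ℝ] ℝ) := by
    ext v
    rw [grd_apply, Finset.sum_eq_single i]
    · simp
    · intro j _ hj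
      simp [hj]
    · intro h
      exact absurd (Finset.mem_univ i) h
  unfold HG
  rw [h2]
  exact h1

theorem HG_rad {f : ℝ → ℂ} {f' : ℂ} {x : E d} (hx : x ≠ 0) (hf : HasDerivAt f f' ‖x‖) :
    HG (fun x : E d => f ‖x‖) (fun j => f' * ((x j / ‖x‖ : ℝ) : ℂ)) x := by
  have hx0 : ‖x‖ ≠ 0 := norm_ne_zero_iff.2 hx
  have h1 : HasFDerivAt (fun x : E d => ‖x‖ ^ 2) (2 • innerSL ℝ x) x :=
    (hasStrictFDerivAt_norm_sq x).hasFDerivAt
  have h2 := h1.sqrt (pow_ne_zero 2 hx0)
  have h3 : (fun x : E d => √(‖x‖ ^ 2)) = fun x => ‖x‖ := by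
    funext y
    exact Real.sqrt_sq (norm_nonneg y)
  rw [h3, Real.sqrt_sq (norm_nonneg x)] at h2
  have h4 := hf.hasFDerivAt.comp x h2
  unfold HG
  refine HasFDerivAt.congr_fderiv (f := fun x : E d => f ‖x‖) h4 ?_
  ext v
  rw [grd_apply]
  simp only [ContinuousLinearMap.comp_apply, _root_.smul_apply,
    ContinuousLinearMap.toSpanSingleton_apply, innerSL_apply_apply]
  rw [PiLp.inner_apply]
  simp only [smul_eq_mul, nsmul_eq_mul, Complex.real_smul]
  push_cast
  rw [Finset.mul_sum, Finset.mul_sum, Finset.sum_mul]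
  refine Finset.sum_congr rfl fun j _ => ?_
  have hx1 : ((‖x‖ : ℝ) : ℂ) ≠ 0 := Complex.ofReal_ne_zero.2 hx0
  simp
  field_simp

end Pool.Agent.K3h66.LT
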