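import Pool.Agent.K3h66.LT.Grd

/-!
# Brick PDE, part 2: homogeneous functions, integration by parts
-/

set_option autoImplicit false

open MeasureTheory Filter Topology Set
open scoped ENNReal NNReal ContDiff

namespace Pool.Agent.K3h66.LT

open Pool.Agent.Helper41.CE Pool.Agent.K3h53.LT

variable {d : ℕ}

/-- homogeneous of degree `k` -/
def Hm (k : ℕ) (F : E d → ℂ) : Prop := ∀ (t : ℝ) (x : E d), 0 < t → F (t • x) = (t : ℂ) ^ k * F x

theorem Hm.bd {k : ℕ} {F : E d → ℂ} (h : Hm (k + 1) F) (hc : Continuous F) :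
    ∃ C : ℝ, 0 ≤ C ∧ ∀ x, ‖F x‖ ≤ C * ‖x‖ ^ (k + 1) := by
  have h0 : F 0 = 0 := by
    have h1 := h 2 0 two_pos
    rw [smul_zero] at h1
    have h2 : (((2 : ℝ) : ℂ) ^ (k + 1) - 1) * F 0 = 0 := by
      rw [sub_mul, one_mul, ← h1, sub_self]
    rcases mul_eq_zero.1 h2 with h3 | h3
    · exfalso
      have h4 : ((2 : ℝ) : ℂ) ^ (k + 1) = 1 := sub_eq_zero.1 h3
      have h5 : ((2 : ℝ)) ^ (k + 1) = 1 := by exact_mod_cast h4
      have h6 : (1 : ℝ) < 2 ^ (k + 1) := one_lt_pow₀ (by norm_num) (Nat.succ_ne_zero k)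
      linarith
    · exact h3
  obtain ⟨C, hC⟩ := (isCompact_sphere (0 : E d) 1).exists_bound_of_continuousOn hc.continuousOn
  refine ⟨max C 0, le_max_right _ _, fun x => ?_⟩
  by_cases hx : x = 0
  · subst hx
    rw [h0, norm_zero, norm_zero]
    simp
  have hx0 : 0 < ‖x‖ := norm_pos_iff.2 hx
  have h1 : x = ‖x‖ • (‖x‖⁻¹ • x) := by
    rw [smul_smul, mul_inv_cancel₀ hx0.ne', one_smul]
  have h2 : F x = ((‖x‖ : ℝ) : ℂ) ^ (k + 1) * F (‖x‖⁻¹ • x) := by
    conv_lhs => rw [h1]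
    exact h _ _ hx0
  have h3 : ‖F (‖x‖⁻¹ • x)‖ ≤ C := by
    refine hC _ ?_
    rw [mem_sphere_zero_iff_norm, norm_smul, norm_inv, norm_norm, inv_mul_cancel₀ hx0.ne']
  rw [h2, norm_mul, norm_pow, Complex.norm_real, norm_norm, mul_comm]
  exact mul_le_mul_of_nonneg_right (h3.trans (le_max_left _ _)) (by positivity)

theorem Hm.pd {k : ℕ} {F : E d → ℂ} (h : Hm (k + 1) F) (hd : Differentiable ℝ F) (i : Fin d) :
    Hm k (Helper41.CE.pd i F) := by
  intro t x ht
  have h1 : HasFDerivAt (fun x => F (t • x)) (t • fderiv ℝ F (t • x)) x := by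
    have h2 := (hd (t • x)).hasFDerivAt.comp x
      ((t • ContinuousLinearMap.id ℝ (E d)).hasFDerivAt (x := x))
    refine HasFDerivAt.congr_fderiv (f := fun x => F (t • x)) h2 ?_
    ext v
    simp
  have h3 : HasFDerivAt (fun x => F (t • x)) (((t : ℂ) ^ (k + 1)) • fderiv ℝ F x) x := by
    have h4 : (fun x => F (t • x)) = fun x => (t : ℂ) ^ (k + 1) * F x := by
      funext y
      exact h t y ht
    rw [h4]
    exact (hd x).hasFDerivAt.const_mul _
  have h5 := congrArg (fun L : E d →L[ℝ] ℂ => L (EuclideanSpace.single i 1)) (h1.unique h3)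
  simp only [_root_.smul_apply, smul_eq_mul] at h5
  rw [Complex.real_smul] at h5
  unfold Helper41.CE.pd
  have ht' : (t : ℂ) ≠ 0 := Complex.ofReal_ne_zero.2 ht.ne'
  refine mul_left_cancel₀ ht' ?_
  rw [h5]
  ring

theorem pd_smooth {F : E d → ℂ} (h : ContDiff ℝ ∞ F) (i : Fin d) :
    ContDiff ℝ ∞ (Helper41.CE.pd i F) := by
  have h1 : ContDiff ℝ ∞ (fderiv ℝ F) := h.fderiv_right (by simp)
  exact h1.clm_apply contDiff_const

theorem euler {k : ℕ} {F : E d → ℂ} (h : ∀ (t : ℝ) (x : E d), F (t • x) = (t : ℂ) ^ k * F x)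
    (hd : Differentiable ℝ F) (x : E d) :
    ∑ j, ((x j : ℝ) : ℂ) * Helper41.CE.pd j F x = k * F x := by
  have h1 : HasDerivAt (fun t : ℝ => F (t • x)) (fderiv ℝ F ((1 : ℝ) • x) x) 1 := by
    have h2 : HasDerivAt (fun t : ℝ => t • x) x 1 := by
      simpa using (hasDerivAt_id (1 : ℝ)).smul_const x
    exact (hd ((1 : ℝ) • x)).hasFDerivAt.comp_hasDerivAt (1 : ℝ) h2
  have h3 : HasDerivAt (fun t : ℝ => F (t • x)) ((k : ℂ) * F x) 1 := by
    have h4 : (fun t : ℝ => F (t • x)) = fun t : ℝ => (t : ℂ) ^ k * F x := by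
      funext t
      exact h t x
    rw [h4]
    have h5 : HasDerivAt (fun t : ℝ => (t : ℂ) ^ k) ((k : ℂ) * ((1 : ℝ) : ℂ) ^ (k - 1) * 1) 1 :=
      (Complex.ofRealCLM.hasDerivAt (x := (1 : ℝ))).pow k
    have h6 := h5.mul_const (F x)
    simpa using h6
  have h7 := h1.unique h3
  rw [one_smul, clm_eq_grd (fderiv ℝ F x), grd_apply] at h7
  exact h7

/-- Integration by parts against a test function. -/
theorem ibp {F : E d → ℂ} (hd : Differentiable ℝ F) {i : Fin d}
    (hc : Continuous (Helper41.CE.pd i F)) {φ : E d → ℂ} (hφ : IsTest φ) :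
    pair F (Helper41.CE.pd i φ) = - pair (Helper41.CE.pd i F) φ := by
  have hφd : Differentiable ℝ φ := hφ.1.differentiable (by simp)
  have hφc : Continuous (Helper41.CE.pd i φ) := (pd_smooth hφ.1 i).continuous
  have hs : HasCompactSupport (Helper41.CE.pd i φ) := by
    have h1 := hφ.2.fderiv_apply (𝕜 := ℝ) (EuclideanSpace.single i 1)
    exact h1
  refine integral_mul_fderiv_eq_neg_fderiv_mul_of_integrable ?_ ?_ ?_
    (fun x _ => hd x) (fun x _ => hφd x)
  · exact (hc.mul hφ.1.continuous).integrable_of_hasCompactSupport hφ.2.mul_left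
  · exact (hd.continuous.mul hφc).integrable_of_hasCompactSupport hs.mul_left
  · exact (hd.continuous.mul hφ.1.continuous).integrable_of_hasCompactSupport hφ.2.mul_left

theorem cont0 {F : E d → ℂ} {C : ℝ} (h : ∀ x, ‖x‖ ≤ 1 → ‖F x‖ ≤ C * ‖x‖) : ContinuousAt F 0 := by
  have h0 : F 0 = 0 := by
    have h1 := h 0 (by rw [norm_zero]; exact zero_le_one)
    rw [norm_zero, mul_zero] at h1
    exact norm_le_zero_iff.1 h1
  unfold ContinuousAt
  rw [h0]
  have h2 : Tendsto (fun x : E d => C * ‖x‖) (𝓝 0) (𝓝 0) := by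
    have h3 : Continuous (fun x : E d => C * ‖x‖) := by fun_prop
    have h4 := h3.tendsto 0
    rwa [norm_zero, mul_zero] at h4
  refine squeeze_zero_norm' ?_ h2
  filter_upwards [Metric.closedBall_mem_nhds (0 : E d) one_pos] with x hx
  exact h x (mem_closedBall_zero_iff.1 hx)

theorem diff0 {F : E d → ℂ} {C : ℝ} (h : ∀ x, ‖x‖ ≤ 1 → ‖F x‖ ≤ C * ‖x‖ ^ 2) :
    HG F (fun _ => 0) 0 := by
  have h0 : F 0 = 0 := by
    have h1 := h 0 (by rw [norm_zero]; exact zero_le_one)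
    rw [norm_zero, zero_pow two_ne_zero, mul_zero] at h1
    exact norm_le_zero_iff.1 h1
  have hg : grd (fun _ : Fin d => (0 : ℂ)) = 0 := by
    ext v
    rw [grd_apply]
    simp
  unfold HG
  rw [hg]
  rw [hasFDerivAt_iff_isLittleO_nhds_zero]
  rw [h0]
  simp only [zero_add, sub_zero, _root_.zero_apply]
  have h2 : F =O[𝓝 0] fun x : E d => ‖x‖ ^ 2 := by
    refine Asymptotics.IsBigO.of_bound C ?_
    filter_upwards [Metric.closedBall_mem_nhds (0 : E d) one_pos] with x hx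
    rw [norm_pow, norm_norm]
    exact h x (mem_closedBall_zero_iff.1 hx)
  refine h2.trans_isLittleO ?_
  exact Asymptotics.isLittleO_norm_pow_id one_lt_two

end Pool.Agent.K3h66.LT
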