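import Pool.Agent.K3h66.LT.Hom

/-!
# Brick PDE: from the radial equation to an eigenfunction on `ℝᵈ`
-/

set_option autoImplicit false
set_option maxHeartbeats 4000000

open MeasureTheory Filter Topology Set
open scoped ENNReal NNReal ContDiff

namespace Pool.Agent.K3h66.LT

open Pool.Agent.Helper41.CE Pool.Agent.K3h53.LT

theorem t_pde : Pool.Agent.K3h53.LT.St_pde := by
  intro d ℓ h v z f f1 f2 Y hd hℓ hh hv hvb hR hY
  obtain ⟨Cv, hCv⟩ := hvb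
  obtain ⟨hf, hf1, heq, ⟨C0, hC0⟩, hI0, hI1⟩ := hR
  obtain ⟨hYs, hYh, hYl⟩ := hY
  obtain ⟨n, rfl⟩ : ∃ n, ℓ = n + 3 := ⟨ℓ - 3, by omega⟩
  have hC0' : 0 ≤ C0 := by
    have h1 := (hC0 1 one_pos le_rfl).1
    rw [one_pow, one_pow, mul_one, mul_one] at h1
    exact (norm_nonneg _).trans h1
  -- bounds for `Y` and its derivatives
  have hYd : Differentiable ℝ Y := hYs.differentiable (by simp)
  have hY1s : ∀ i, ContDiff ℝ ∞ (pd i Y) := fun i => pd_smooth hYs i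
  have hY1d : ∀ i, Differentiable ℝ (pd i Y) := fun i => (hY1s i).differentiable (by simp)
  have hY2s : ∀ i j, ContDiff ℝ ∞ (pd j (pd i Y)) := fun i j => pd_smooth (hY1s i) j
  have hHY : Hm (n + 2 + 1) Y := fun t x _ => hYh t x
  have hHY1 : ∀ i, Hm (n + 1 + 1) (pd i Y) := fun i => hHY.pd hYd i
  have hHY2 : ∀ i j, Hm (n + 1) (pd j (pd i Y)) := fun i j => (hHY1 i).pd (hY1d i) j
  obtain ⟨A, hA, hAY⟩ := hHY.bd hYs.continuous
  have hb1 : ∃ B : ℝ, 0 ≤ B ∧ ∀ i x, ‖pd i Y x‖ ≤ B * ‖x‖ ^ (n + 2) := by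
    choose B hB hB' using fun i => (hHY1 i).bd (hY1s i).continuous
    refine ⟨∑ i, B i, Finset.sum_nonneg fun i _ => hB i, fun i x => (hB' i x).trans ?_⟩
    exact mul_le_mul_of_nonneg_right
      (Finset.single_le_sum (f := B) (fun i _ => hB i) (Finset.mem_univ i)) (by positivity)
  obtain ⟨B, hB, hBY⟩ := hb1
  have hb2 : ∃ D : ℝ, 0 ≤ D ∧ ∀ i j x, ‖pd j (pd i Y) x‖ ≤ D * ‖x‖ ^ (n + 1) := by
    choose D hD hD' using fun i j => (hHY2 i j).bd (hY2s i j).continuous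
    refine ⟨∑ i, ∑ j, D i j, Finset.sum_nonneg fun i _ => Finset.sum_nonneg fun j _ => hD i j,
      fun i j x => (hD' i j x).trans ?_⟩
    refine mul_le_mul_of_nonneg_right ?_ (by positivity)
    exact (Finset.single_le_sum (f := D i) (fun j _ => hD i j) (Finset.mem_univ j)).trans
      (Finset.single_le_sum (f := fun i => ∑ j, D i j)
        (fun i _ => Finset.sum_nonneg fun j _ => hD i j) (Finset.mem_univ i))
  obtain ⟨D, hD, hDY⟩ := hb2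
  have hh2 : ((h ^ 2 : ℝ) : ℂ) ≠ 0 := by
    exact_mod_cast (pow_pos hh 2).ne'
  -- the second derivative of `f`
  have hf2 : ∀ r, 0 < r → f2 r = ((h ^ 2 : ℝ) : ℂ)⁻¹ * ((v r - z) * f r) -
      (((d : ℝ) - 1 + 2 * (n + 3 : ℕ)) / r : ℝ) * f1 r := by
    intro r hr
    rw [← heq r hr]
    field_simp
    ring
  set e : ℝ := (d : ℝ) - 1 + 2 * (n + 3 : ℕ) with he
  have he0 : 0 ≤ e := by
    have : (2 : ℝ) ≤ d := by exact_mod_cast hd
    rw [he]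
    push_cast
    have : (0 : ℝ) ≤ n := Nat.cast_nonneg n
    linarith
  set K2 : ℝ := ‖((h ^ 2 : ℝ) : ℂ)⁻¹‖ * ((Cv + ‖z‖) * C0) + e * C0 with hK2
  have hCv0 : 0 ≤ Cv := (norm_nonneg _).trans (hCv 0)
  have hf2b : ∀ r, 0 < r → r ≤ 1 → ‖f2 r‖ * r ^ (n + 3) ≤ K2 * r := by
    intro r hr hr1
    obtain ⟨h1, h2⟩ := hC0 r hr hr1
    have h3 : ‖f2 r‖ ≤ ‖((h ^ 2 : ℝ) : ℂ)⁻¹‖ * ((Cv + ‖z‖) * ‖f r‖) + e / r * ‖f1 r‖ := by
      rw [hf2 r hr]
      refine (norm_sub_le _ _).trans ?_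
      rw [norm_mul, norm_mul, norm_mul, Complex.norm_real, Real.norm_of_nonneg
        (div_nonneg he0 hr.le)]
      gcongr
      exact (norm_sub_le _ _).trans (by gcongr; exact hCv r)
    have h4 : ‖f2 r‖ * r ^ (n + 3) ≤ ‖((h ^ 2 : ℝ) : ℂ)⁻¹‖ * ((Cv + ‖z‖) * (‖f r‖ * r ^ (n + 3))) +
        e / r * (‖f1 r‖ * r ^ (n + 3)) := by
      calc ‖f2 r‖ * r ^ (n + 3) ≤ (‖((h ^ 2 : ℝ) : ℂ)⁻¹‖ * ((Cv + ‖z‖) * ‖f r‖) +
            e / r * ‖f1 r‖) * r ^ (n + 3) := by gcongr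
        _ = _ := by ring
    refine h4.trans ?_
    have h5 : ‖f r‖ * r ^ (n + 3) ≤ C0 * r := by
      refine h1.trans ?_
      have : r ^ 3 ≤ r := by
        calc r ^ 3 ≤ r ^ 1 := pow_le_pow_of_le_one hr.le hr1 (by norm_num)
          _ = r := pow_one r
      gcongr
    have h6 : e / r * (‖f1 r‖ * r ^ (n + 3)) ≤ e * C0 * r := by
      calc e / r * (‖f1 r‖ * r ^ (n + 3)) ≤ e / r * (C0 * r ^ 2) := by gcongr
        _ = e * C0 * r := by field_simp <;> ring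
    calc ‖((h ^ 2 : ℝ) : ℂ)⁻¹‖ * ((Cv + ‖z‖) * (‖f r‖ * r ^ (n + 3))) +
          e / r * (‖f1 r‖ * r ^ (n + 3)) ≤
          ‖((h ^ 2 : ℝ) : ℂ)⁻¹‖ * ((Cv + ‖z‖) * (C0 * r)) + e * C0 * r := by gcongr
      _ = K2 * r := by rw [hK2]; ring
  have hK20 : 0 ≤ K2 := by rw [hK2]; positivity
  -- the function, its gradient, and the second derivatives
  set u : E d → ℂ := fun x => f ‖x‖ * Y x with hu
  set g : Fin d → E d → ℂ := fun i x =>
    (f1 ‖x‖ * ((‖x‖⁻¹ : ℝ) : ℂ)) * (((x i : ℝ) : ℂ) * Y x) + f ‖x‖ * pd i Y x with hg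
  set G : Fin d → Fin d → E d → ℂ := fun i j x =>
    (f1 ‖x‖ * ((‖x‖⁻¹ : ℝ) : ℂ)) * (((x i : ℝ) : ℂ) * pd j Y x + (if j = i then 1 else 0) * Y x) +
      ((f2 ‖x‖ * ((‖x‖⁻¹ : ℝ) : ℂ) - f1 ‖x‖ * ((‖x‖⁻¹ ^ 2 : ℝ) : ℂ)) * ((x j / ‖x‖ : ℝ) : ℂ)) *
        (((x i : ℝ) : ℂ) * Y x) +
      (f ‖x‖ * pd j (pd i Y) x + f1 ‖x‖ * ((x j / ‖x‖ : ℝ) : ℂ) * pd i Y x) with hG
  have hxi : ∀ (x : E d) (i : Fin d), ‖((x i : ℝ) : ℂ)‖ ≤ ‖x‖ := by
    intro x i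
    rw [Complex.norm_real]
    exact PiLp.norm_apply_le x i
  have hxr : ∀ (x : E d) (i : Fin d), ‖((x i / ‖x‖ : ℝ) : ℂ)‖ ≤ 1 := by
    intro x i
    rw [Complex.norm_real, norm_div, norm_norm]
    exact div_le_one_of_le₀ (PiLp.norm_apply_le x i) (norm_nonneg x)
  have hY0 : Y 0 = 0 := by
    have h1 := hAY 0
    rw [norm_zero, zero_pow (by omega), mul_zero] at h1
    exact norm_le_zero_iff.1 h1
  have hY10 : ∀ i, pd i Y 0 = 0 := by
    intro i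
    have h1 := hBY i 0
    rw [norm_zero, zero_pow (by omega), mul_zero] at h1
    exact norm_le_zero_iff.1 h1
  have hY20 : ∀ i j, pd j (pd i Y) 0 = 0 := by
    intro i j
    have h1 := hDY i j 0
    rw [norm_zero, zero_pow (by omega), mul_zero] at h1
    exact norm_le_zero_iff.1 h1
  -- bounds near zero
  have hub : ∀ x : E d, ‖x‖ ≤ 1 → ‖u x‖ ≤ A * C0 * ‖x‖ ^ 2 := by
    intro x hx
    by_cases hx0 : x = 0
    · subst hx0
      simp only [hu, hY0, mul_zero, norm_zero]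
      positivity
    have hx1 : 0 < ‖x‖ := norm_pos_iff.2 hx0
    have h1 := (hC0 _ hx1 hx).1
    calc ‖u x‖ = ‖f ‖x‖‖ * ‖Y x‖ := norm_mul _ _
      _ ≤ ‖f ‖x‖‖ * (A * ‖x‖ ^ (n + 2 + 1)) := by gcongr; exact hAY x
      _ = A * (‖f ‖x‖‖ * ‖x‖ ^ (n + 3)) := by ring
      _ ≤ A * (C0 * ‖x‖ ^ 3) := by gcongr
      _ ≤ A * (C0 * ‖x‖ ^ 2) := by
          gcongr 2
          exact pow_le_pow_of_le_one hx1.le hx (by norm_num)
      _ = A * C0 * ‖x‖ ^ 2 := by ring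
  have hgb : ∀ i (x : E d), ‖x‖ ≤ 1 → ‖g i x‖ ≤ (A * C0 + B * C0) * ‖x‖ ^ 2 := by
    intro i x hx
    by_cases hx0 : x = 0
    · subst hx0
      simp only [hg, hY0, hY10, mul_zero, add_zero, norm_zero]
      positivity
    have hx1 : 0 < ‖x‖ := norm_pos_iff.2 hx0
    obtain ⟨h1, h2⟩ := hC0 _ hx1 hx
    have h3 : ‖(f1 ‖x‖ * ((‖x‖⁻¹ : ℝ) : ℂ)) * (((x i : ℝ) : ℂ) * Y x)‖ ≤ A * C0 * ‖x‖ ^ 2 := by
      rw [norm_mul, norm_mul, norm_mul, Complex.norm_real, norm_inv, norm_norm]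
      calc ‖f1 ‖x‖‖ * ‖x‖⁻¹ * (‖((x i : ℝ) : ℂ)‖ * ‖Y x‖) ≤
            ‖f1 ‖x‖‖ * ‖x‖⁻¹ * (‖x‖ * (A * ‖x‖ ^ (n + 2 + 1))) := by
              gcongr
              · exact hxi x i
              · exact hAY x
        _ = A * (‖f1 ‖x‖‖ * ‖x‖ ^ (n + 3)) := by field_simp <;> ring
        _ ≤ A * (C0 * ‖x‖ ^ 2) := by gcongr
        _ = _ := by ring
    have h4 : ‖f ‖x‖ * pd i Y x‖ ≤ B * C0 * ‖x‖ ^ 2 := by
      rw [norm_mul]
      calc ‖f ‖x‖‖ * ‖pd i Y x‖ ≤ ‖f ‖x‖‖ * (B * ‖x‖ ^ (n + 2)) := by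
            gcongr; exact hBY i x
        _ = B * (‖f ‖x‖‖ * ‖x‖ ^ (n + 3)) * ‖x‖⁻¹ := by field_simp <;> ring
        _ ≤ B * (C0 * ‖x‖ ^ 3) * ‖x‖⁻¹ := by gcongr
        _ = B * C0 * ‖x‖ ^ 2 := by field_simp <;> ring
    calc ‖g i x‖ ≤ _ := norm_add_le _ _
      _ ≤ A * C0 * ‖x‖ ^ 2 + B * C0 * ‖x‖ ^ 2 := add_le_add h3 h4
      _ = _ := by ring
  have hGb : ∀ i j (x : E d), ‖x‖ ≤ 1 → ‖G i j x‖ ≤
      (C0 * B + C0 * A + (K2 + C0) * A + C0 * D + C0 * B) * ‖x‖ := by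
    intro i j x hx
    by_cases hx0 : x = 0
    · subst hx0
      simp only [hG, hY0, hY10, hY20, mul_zero, add_zero, norm_zero, le_refl]
    have hx1 : 0 < ‖x‖ := norm_pos_iff.2 hx0
    obtain ⟨h1, h2⟩ := hC0 _ hx1 hx
    have h2' := hf2b _ hx1 hx
    have hi : ‖(if j = i then (1 : ℂ) else 0)‖ ≤ 1 := by split_ifs <;> simp
    have t1 : ‖(f1 ‖x‖ * ((‖x‖⁻¹ : ℝ) : ℂ)) * (((x i : ℝ) : ℂ) * pd j Y x)‖ ≤ C0 * B * ‖x‖ := by
      rw [norm_mul, norm_mul, norm_mul, Complex.norm_real, norm_inv, norm_norm]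
      calc ‖f1 ‖x‖‖ * ‖x‖⁻¹ * (‖((x i : ℝ) : ℂ)‖ * ‖pd j Y x‖) ≤
            ‖f1 ‖x‖‖ * ‖x‖⁻¹ * (‖x‖ * (B * ‖x‖ ^ (n + 2))) := by
              gcongr
              · exact hxi x i
              · exact hBY j x
        _ = (‖f1 ‖x‖‖ * ‖x‖ ^ (n + 3)) * B * ‖x‖⁻¹ := by field_simp <;> ring
        _ ≤ (C0 * ‖x‖ ^ 2) * B * ‖x‖⁻¹ := by gcongr
        _ = C0 * B * ‖x‖ := by field_simp <;> ring
    have t2 : ‖(f1 ‖x‖ * ((‖x‖⁻¹ : ℝ) : ℂ)) * ((if j = i then 1 else 0) * Y x)‖ ≤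
        C0 * A * ‖x‖ := by
      rw [norm_mul, norm_mul, norm_mul, Complex.norm_real, norm_inv, norm_norm]
      calc ‖f1 ‖x‖‖ * ‖x‖⁻¹ * (‖(if j = i then (1 : ℂ) else 0)‖ * ‖Y x‖) ≤
            ‖f1 ‖x‖‖ * ‖x‖⁻¹ * (1 * (A * ‖x‖ ^ (n + 2 + 1))) := by
              gcongr
              exact hAY x
        _ = (‖f1 ‖x‖‖ * ‖x‖ ^ (n + 3)) * A * ‖x‖⁻¹ := by ring
        _ ≤ (C0 * ‖x‖ ^ 2) * A * ‖x‖⁻¹ := by gcongr
        _ = C0 * A * ‖x‖ := by field_simp <;> ring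
    have t3 : ‖((f2 ‖x‖ * ((‖x‖⁻¹ : ℝ) : ℂ) - f1 ‖x‖ * ((‖x‖⁻¹ ^ 2 : ℝ) : ℂ)) *
        ((x j / ‖x‖ : ℝ) : ℂ)) * (((x i : ℝ) : ℂ) * Y x)‖ ≤ (K2 + C0) * A * ‖x‖ := by
      have h5 : ‖f2 ‖x‖ * ((‖x‖⁻¹ : ℝ) : ℂ) - f1 ‖x‖ * ((‖x‖⁻¹ ^ 2 : ℝ) : ℂ)‖ ≤
          ‖f2 ‖x‖‖ * ‖x‖⁻¹ + ‖f1 ‖x‖‖ * ‖x‖⁻¹ ^ 2 := by
        refine (norm_sub_le _ _).trans (le_of_eq ?_)
        rw [norm_mul, norm_mul, Complex.norm_real, Complex.norm_real, norm_pow, norm_inv,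
          norm_norm]
      rw [norm_mul, norm_mul, norm_mul]
      calc ‖f2 ‖x‖ * ((‖x‖⁻¹ : ℝ) : ℂ) - f1 ‖x‖ * ((‖x‖⁻¹ ^ 2 : ℝ) : ℂ)‖ *
            ‖((x j / ‖x‖ : ℝ) : ℂ)‖ * (‖((x i : ℝ) : ℂ)‖ * ‖Y x‖) ≤
            (‖f2 ‖x‖‖ * ‖x‖⁻¹ + ‖f1 ‖x‖‖ * ‖x‖⁻¹ ^ 2) * 1 * (‖x‖ * (A * ‖x‖ ^ (n + 2 + 1))) := by
              gcongr
              · exact hxr x j
              · exact hxi x i
              · exact hAY x
        _ = (‖f2 ‖x‖‖ * ‖x‖ ^ (n + 3)) * A + (‖f1 ‖x‖‖ * ‖x‖ ^ (n + 3)) * A * ‖x‖⁻¹ := by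
              field_simp <;> ring
        _ ≤ (K2 * ‖x‖) * A + (C0 * ‖x‖ ^ 2) * A * ‖x‖⁻¹ := by gcongr
        _ = (K2 + C0) * A * ‖x‖ := by field_simp <;> ring
    have t4 : ‖f ‖x‖ * pd j (pd i Y) x‖ ≤ C0 * D * ‖x‖ := by
      rw [norm_mul]
      calc ‖f ‖x‖‖ * ‖pd j (pd i Y) x‖ ≤ ‖f ‖x‖‖ * (D * ‖x‖ ^ (n + 1)) := by
            gcongr; exact hDY i j x
        _ = (‖f ‖x‖‖ * ‖x‖ ^ (n + 3)) * D * ‖x‖⁻¹ ^ 2 := by field_simp <;> ring
        _ ≤ (C0 * ‖x‖ ^ 3) * D * ‖x‖⁻¹ ^ 2 := by gcongr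
        _ = C0 * D * ‖x‖ := by field_simp <;> ring
    have t5 : ‖f1 ‖x‖ * ((x j / ‖x‖ : ℝ) : ℂ) * pd i Y x‖ ≤ C0 * B * ‖x‖ := by
      rw [norm_mul, norm_mul]
      calc ‖f1 ‖x‖‖ * ‖((x j / ‖x‖ : ℝ) : ℂ)‖ * ‖pd i Y x‖ ≤
            ‖f1 ‖x‖‖ * 1 * (B * ‖x‖ ^ (n + 2)) := by
              gcongr
              · exact hxr x j
              · exact hBY i x
        _ = (‖f1 ‖x‖‖ * ‖x‖ ^ (n + 3)) * B * ‖x‖⁻¹ := by field_simp <;> ring
        _ ≤ (C0 * ‖x‖ ^ 2) * B * ‖x‖⁻¹ := by gcongr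
        _ = C0 * B * ‖x‖ := by field_simp <;> ring
    calc ‖G i j x‖ ≤ ‖(f1 ‖x‖ * ((‖x‖⁻¹ : ℝ) : ℂ)) * (((x i : ℝ) : ℂ) * pd j Y x +
            (if j = i then 1 else 0) * Y x)‖ + ‖((f2 ‖x‖ * ((‖x‖⁻¹ : ℝ) : ℂ) -
              f1 ‖x‖ * ((‖x‖⁻¹ ^ 2 : ℝ) : ℂ)) * ((x j / ‖x‖ : ℝ) : ℂ)) *
              (((x i : ℝ) : ℂ) * Y x)‖ +
            (‖f ‖x‖ * pd j (pd i Y) x‖ + ‖f1 ‖x‖ * ((x j / ‖x‖ : ℝ) : ℂ) * pd i Y x‖) :=
              (norm_add_le _ _).trans (add_le_add (norm_add_le _ _) (norm_add_le _ _))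
      _ ≤ (C0 * B * ‖x‖ + C0 * A * ‖x‖) + (K2 + C0) * A * ‖x‖ +
            (C0 * D * ‖x‖ + C0 * B * ‖x‖) := by
              refine add_le_add (add_le_add ?_ t3) (add_le_add t4 t5)
              rw [mul_add]
              exact (norm_add_le _ _).trans (add_le_add t1 t2)
      _ = _ := by ring
  -- derivatives
  have hHGu : ∀ x, HG u (fun j => g j x) x := by
    intro x
    by_cases hx0 : x = 0
    · subst hx0
      have h1 := diff0 hub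
      have h2 : (fun j => g j 0) = fun _ : Fin d => (0 : ℂ) := by
        funext j
        simp only [hg, hY0, hY10, mul_zero, add_zero]
      rw [h2]
      exact h1
    have hx1 : 0 < ‖x‖ := norm_pos_iff.2 hx0
    have h1 := (HG_rad hx0 (hf _ hx1)).mul (HG_of (hYd x))
    convert h1 using 1
    funext j
    simp only [hg]
    push_cast
    rw [div_eq_mul_inv]
    ring
  have hHGg : ∀ i x, HG (g i) (fun j => G i j x) x := by
    intro i x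
    by_cases hx0 : x = 0
    · subst hx0
      have h1 := diff0 (hgb i)
      have h2 : (fun j => G i j 0) = fun _ : Fin d => (0 : ℂ) := by
        funext j
        simp only [hG, hY0, hY10, hY20, mul_zero, add_zero]
      rw [h2]
      exact h1
    have hx1 : 0 < ‖x‖ := norm_pos_iff.2 hx0
    have h1 : HasDerivAt (fun r : ℝ => f1 r * ((r⁻¹ : ℝ) : ℂ))
        (f2 ‖x‖ * ((‖x‖⁻¹ : ℝ) : ℂ) - f1 ‖x‖ * ((‖x‖⁻¹ ^ 2 : ℝ) : ℂ)) ‖x‖ := by
      have h2 : HasDerivAt (fun r : ℝ => ((r⁻¹ : ℝ) : ℂ)) ((-(‖x‖ ^ 2)⁻¹ : ℝ) : ℂ) ‖x‖ :=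
        (hasDerivAt_inv hx1.ne').ofReal_comp
      have h3 := (hf1 _ hx1).mul h2
      exact h3.congr_deriv (by push_cast; ring)
    have h2 := ((HG_rad hx0 h1).mul ((HG_coord i x).mul (HG_of (hYd x)))).add
      ((HG_rad hx0 (hf _ hx1)).mul (HG_of (hY1d i x)))
    exact h2
  have hpu : ∀ i, pd i u = g i := fun i => funext fun x => (hHGu x).pd i
  have hpg : ∀ i j, pd j (g i) = G i j := fun i j => funext fun x => (hHGg i x).pd j
  have hud : Differentiable ℝ u := fun x => (hHGu x).diff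
  have hgd : ∀ i, Differentiable ℝ (g i) := fun i x => (hHGg i x).diff
  -- continuity
  have hcf : ∀ x : E d, x ≠ 0 → ContinuousAt (fun x : E d => f ‖x‖) x := fun x hx =>
    (hf _ (norm_pos_iff.2 hx)).continuousAt.comp continuous_norm.continuousAt
  have hcf1 : ∀ x : E d, x ≠ 0 → ContinuousAt (fun x : E d => f1 ‖x‖) x := fun x hx =>
    (hf1 _ (norm_pos_iff.2 hx)).continuousAt.comp continuous_norm.continuousAt
  have hci : ∀ x : E d, x ≠ 0 → ContinuousAt (fun x : E d => ((‖x‖⁻¹ : ℝ) : ℂ)) x := fun x hx =>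
    Complex.continuous_ofReal.continuousAt.comp
      (continuous_norm.continuousAt.inv₀ (norm_ne_zero_iff.2 hx))
  have hcf2 : ∀ x : E d, x ≠ 0 → ContinuousAt (fun x : E d => f2 ‖x‖) x := by
    intro x hx
    have h1 : (fun x : E d => f2 ‖x‖) =ᶠ[𝓝 x] fun x => ((h ^ 2 : ℝ) : ℂ)⁻¹ *
        ((v ‖x‖ - z) * f ‖x‖) - (e : ℂ) * ((‖x‖⁻¹ : ℝ) : ℂ) * f1 ‖x‖ := by
      filter_upwards [isOpen_ne.mem_nhds hx] with y hy
      rw [hf2 _ (norm_pos_iff.2 hy)]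
      push_cast
      ring
    refine ContinuousAt.congr ?_ h1.symm
    have h2 : ContinuousAt (fun x : E d => v ‖x‖) x := (hv.comp continuous_norm).continuousAt
    exact ((h2.sub continuousAt_const).mul (hcf x hx)).const_mul _ |>.sub
      (((hci x hx).const_mul _).mul (hcf1 x hx))
  have hcx : ∀ i, Continuous fun x : E d => ((x i : ℝ) : ℂ) := fun i => by fun_prop
  have hGc : ∀ i j, Continuous (G i j) := by
    intro i j
    rw [continuous_iff_continuousAt]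
    intro x
    by_cases hx0 : x = 0
    · subst hx0
      exact cont0 (hGb i j)
    have c1 := hcf x hx0
    have c2 := hcf1 x hx0
    have c3 := hcf2 x hx0
    have c4 := hci x hx0
    have c5 : ContinuousAt (fun x : E d => ((x i : ℝ) : ℂ)) x := (hcx i).continuousAt
    have c6 : ContinuousAt (fun x : E d => ((x j : ℝ) : ℂ)) x := (hcx j).continuousAt
    have c7 : ContinuousAt Y x := hYs.continuous.continuousAt
    have c8 : ContinuousAt (pd i Y) x := (hY1s i).continuous.continuousAt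
    have c9 : ContinuousAt (pd j Y) x := (hY1s j).continuous.continuousAt
    have c10 : ContinuousAt (pd j (pd i Y)) x := (hY2s i j).continuous.continuousAt
    have c11 : ContinuousAt (fun x : E d => ((‖x‖⁻¹ ^ 2 : ℝ) : ℂ)) x := by
      have := c4.pow 2
      refine this.congr (Filter.Eventually.of_forall fun y => ?_)
      push_cast
      rfl
    have c12 : ContinuousAt (fun x : E d => ((x j / ‖x‖ : ℝ) : ℂ)) x := by
      refine (c6.mul c4).congr (Filter.Eventually.of_forall fun y => ?_)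
      simp only [Pi.mul_apply]
      push_cast
      rw [div_eq_mul_inv]
    exact ((c2.mul c4).mul ((c5.mul c9).add (c7.const_mul _))).add
      ((((c3.mul c4).sub (c2.mul c11)).mul c12).mul (c5.mul c7)) |>.add
      ((c1.mul c10).add ((c2.mul c12).mul c8))
  -- the equation
  have hpde : ∀ x, ((h ^ 2 : ℝ) : ℂ) * ∑ i, G i i x = (v ‖x‖ - z) * u x := by
    intro x
    by_cases hx0 : x = 0
    · subst hx0
      have h1 : ∀ i, G i i (0 : E d) = 0 := by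
        intro i
        simp only [hG, hY0, hY10, hY20, mul_zero, add_zero]
      simp only [h1, Finset.sum_const_zero, mul_zero, hu, hY0]
    have hx1 : 0 < ‖x‖ := norm_pos_iff.2 hx0
    have hx2 : ((‖x‖ : ℝ) : ℂ) ≠ 0 := Complex.ofReal_ne_zero.2 hx1.ne'
    have he1 := euler hYh hYd x
    have he2 : ∑ i, ((x i : ℝ) : ℂ) * ((x i : ℝ) : ℂ) = ((‖x‖ : ℝ) : ℂ) ^ 2 := by
      have h1 : ∑ i, x i * x i = ‖x‖ ^ 2 := by
        rw [EuclideanSpace.real_norm_sq_eq]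
        exact Finset.sum_congr rfl fun i _ => (sq (x i)).symm
      rw [← Complex.ofReal_pow, ← h1]
      push_cast
      rfl
    have h1 : ∑ i, G i i x = (f1 ‖x‖ * ((‖x‖⁻¹ : ℝ) : ℂ)) *
        (∑ i, ((x i : ℝ) : ℂ) * pd i Y x) + (d : ℂ) * (f1 ‖x‖ * ((‖x‖⁻¹ : ℝ) : ℂ)) * Y x +
        (f2 ‖x‖ * ((‖x‖⁻¹ : ℝ) : ℂ) - f1 ‖x‖ * ((‖x‖⁻¹ ^ 2 : ℝ) : ℂ)) * ((‖x‖⁻¹ : ℝ) : ℂ) *
          (∑ i, ((x i : ℝ) : ℂ) * ((x i : ℝ) : ℂ)) * Y x +
        f ‖x‖ * (∑ i, pd i (pd i Y) x) +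
        f1 ‖x‖ * ((‖x‖⁻¹ : ℝ) : ℂ) * (∑ i, ((x i : ℝ) : ℂ) * pd i Y x) := by
      have hd1 : (d : ℂ) * (f1 ‖x‖ * ((‖x‖⁻¹ : ℝ) : ℂ)) * Y x =
          ∑ _i : Fin d, (f1 ‖x‖ * ((‖x‖⁻¹ : ℝ) : ℂ)) * Y x := by
        rw [Finset.sum_const, Finset.card_univ, Fintype.card_fin, nsmul_eq_mul]
        ring
      rw [hd1]
      simp only [Finset.mul_sum, Finset.sum_mul, ← Finset.sum_add_distrib]
      refine Finset.sum_congr rfl fun i _ => ?_
      simp only [hG, if_true]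
      push_cast
      field_simp
      ring
    rw [h1, he1, he2, hYl x, mul_zero, add_zero]
    have h2 := heq _ hx1
    have h3 : ((v ‖x‖ - z) * u x) = ((h ^ 2 : ℝ) : ℂ) *
        (f2 ‖x‖ + ((e / ‖x‖ : ℝ) : ℂ) * f1 ‖x‖) * Y x := by
      rw [h2, hu]
      ring
    rw [h3, he]
    push_cast
    field_simp
    ring
  -- integrability
  have hdim : Module.finrank ℝ (E d) = d := by simp
  have hnt : Nontrivial (E d) := by
    refine Module.nontrivial_of_finrank_pos (R := ℝ) ?_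
    rw [hdim]
    omega
  have hrad : ∀ F : ℝ → ℂ, IntegrableOn (fun r : ℝ => ‖F r‖ ^ 2 * r ^ (2 * (n + 3) + d - 1))
      (Ioi 0) → Integrable (fun x : E d => ‖F ‖x‖‖ ^ 2 * ‖x‖ ^ (2 * (n + 3))) := by
    intro F hF
    have h1 := (integrable_fun_norm_addHaar (E := E d) (volume : Measure (E d))
      (f := fun r : ℝ => ‖F r‖ ^ 2 * r ^ (2 * (n + 3)))).2
    refine h1 ?_
    refine hF.congr_fun ?_ measurableSet_Ioi
    intro r _
    simp only [smul_eq_mul]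
    rw [hdim, show 2 * (n + 3) + d - 1 = (d - 1) + 2 * (n + 3) by omega, pow_add]
    ring
  have hi0 := hrad f hI0
  have hi1 := hrad f1 hI1
  have huI : Integrable (fun x => ‖u x‖ ^ 2) := by
    refine (hi0.const_mul (A ^ 2)).mono' (hud.continuous.norm.pow 2).aestronglyMeasurable ?_
    refine Filter.Eventually.of_forall fun x => ?_
    rw [norm_pow, norm_norm]
    calc ‖u x‖ ^ 2 = ‖f ‖x‖‖ ^ 2 * ‖Y x‖ ^ 2 := by rw [← mul_pow, ← norm_mul]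
      _ ≤ ‖f ‖x‖‖ ^ 2 * (A * ‖x‖ ^ (n + 2 + 1)) ^ 2 := by gcongr; exact hAY x
      _ = A ^ 2 * (‖f ‖x‖‖ ^ 2 * ‖x‖ ^ (2 * (n + 3))) := by ring
  have huL : MemLp u 2 volume :=
    (memLp_two_iff_integrable_sq_norm hud.continuous.aestronglyMeasurable).2 huI
  have hgL : ∀ i, MemLp (g i) 2 volume := by
    intro i
    refine (memLp_two_iff_integrable_sq_norm (hgd i).continuous.aestronglyMeasurable).2 ?_
    set Kb : ℝ := A * C0 + B * C0 with hKb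
    have hball : Integrable (fun x : E d => (Metric.closedBall (0 : E d) 1).indicator
        (fun _ => Kb ^ 2) x) := by
      rw [integrable_indicator_iff Metric.isClosed_closedBall.measurableSet]
      exact integrableOn_const (hs := (isCompact_closedBall (0 : E d) 1).measure_lt_top.ne)
    have hmaj := ((hi1.const_mul (2 * A ^ 2)).add (hi0.const_mul (2 * B ^ 2))).add hball
    refine hmaj.mono' ((hgd i).continuous.norm.pow 2).aestronglyMeasurable ?_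
    refine Filter.Eventually.of_forall fun x => ?_
    rw [norm_pow, norm_norm]
    simp only [Pi.add_apply]
    by_cases hx : ‖x‖ ≤ 1
    · rw [Set.indicator_of_mem (mem_closedBall_zero_iff.2 hx)]
      have h1 : ‖g i x‖ ≤ Kb := by
        refine (hgb i x hx).trans ?_
        have h2 : ‖x‖ ^ 2 ≤ 1 := pow_le_one₀ (norm_nonneg x) hx
        have h3 : 0 ≤ Kb := by rw [hKb]; positivity
        nlinarith
      have h2 : ‖g i x‖ ^ 2 ≤ Kb ^ 2 := by gcongr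
      have h3 : 0 ≤ 2 * A ^ 2 * (‖f1 ‖x‖‖ ^ 2 * ‖x‖ ^ (2 * (n + 3))) := by positivity
      have h4 : 0 ≤ 2 * B ^ 2 * (‖f ‖x‖‖ ^ 2 * ‖x‖ ^ (2 * (n + 3))) := by positivity
      linarith
    · push Not at hx
      have hx1 : 0 < ‖x‖ := one_pos.trans hx
      rw [Set.indicator_of_notMem (by rw [mem_closedBall_zero_iff]; exact not_le.2 hx), add_zero]
      have h1 : ‖(f1 ‖x‖ * ((‖x‖⁻¹ : ℝ) : ℂ)) * (((x i : ℝ) : ℂ) * Y x)‖ ≤
          A * (‖f1 ‖x‖‖ * ‖x‖ ^ (n + 3)) := by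
        rw [norm_mul, norm_mul, norm_mul, Complex.norm_real, norm_inv, norm_norm]
        calc ‖f1 ‖x‖‖ * ‖x‖⁻¹ * (‖((x i : ℝ) : ℂ)‖ * ‖Y x‖) ≤
              ‖f1 ‖x‖‖ * ‖x‖⁻¹ * (‖x‖ * (A * ‖x‖ ^ (n + 2 + 1))) := by
                gcongr
                · exact hxi x i
                · exact hAY x
          _ = A * (‖f1 ‖x‖‖ * ‖x‖ ^ (n + 3)) := by field_simp <;> ring
      have h2 : ‖f ‖x‖ * pd i Y x‖ ≤ B * (‖f ‖x‖‖ * ‖x‖ ^ (n + 3)) := by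
        rw [norm_mul]
        calc ‖f ‖x‖‖ * ‖pd i Y x‖ ≤ ‖f ‖x‖‖ * (B * ‖x‖ ^ (n + 2)) := by
              gcongr; exact hBY i x
          _ ≤ ‖f ‖x‖‖ * (B * ‖x‖ ^ (n + 3)) := by
              gcongr 2
              exact pow_le_pow_right₀ hx.le (by omega)
          _ = _ := by ring
      have h3 : ‖g i x‖ ≤ A * (‖f1 ‖x‖‖ * ‖x‖ ^ (n + 3)) + B * (‖f ‖x‖‖ * ‖x‖ ^ (n + 3)) :=
        (norm_add_le _ _).trans (add_le_add h1 h2)
      calc ‖g i x‖ ^ 2 ≤ (A * (‖f1 ‖x‖‖ * ‖x‖ ^ (n + 3)) + B * (‖f ‖x‖‖ * ‖x‖ ^ (n + 3))) ^ 2 := by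
            gcongr
        _ ≤ 2 * (A * (‖f1 ‖x‖‖ * ‖x‖ ^ (n + 3))) ^ 2 + 2 * (B * (‖f ‖x‖‖ * ‖x‖ ^ (n + 3))) ^ 2 := by
            nlinarith [sq_nonneg (A * (‖f1 ‖x‖‖ * ‖x‖ ^ (n + 3)) -
              B * (‖f ‖x‖‖ * ‖x‖ ^ (n + 3)))]
        _ = _ := by ring
  refine ⟨huL, huL.const_mul z, ?_, g, ?_, ?_⟩
  · have h1 : Continuous fun x : E d => ‖v ‖x‖‖ := (hv.comp continuous_norm).norm
    refine (huI.const_mul Cv).mono' (h1.mul (hud.continuous.norm.pow 2)).aestronglyMeasurable ?_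
    refine Filter.Eventually.of_forall fun x => ?_
    rw [norm_mul, norm_norm, norm_pow, norm_norm]
    gcongr
    exact hCv _
  · intro i
    refine ⟨hgL i, fun φ hφ => ?_⟩
    have h1 : Continuous (pd i u) := by
      rw [hpu i]
      exact (hgd i).continuous
    have h2 := ibp hud h1 hφ
    rw [hpu i] at h2
    exact h2
  · intro φ hφ
    have h1 : ∀ i, pair (g i) (pd i φ) = - pair (G i i) φ := by
      intro i
      have h2 : Continuous (pd i (g i)) := by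
        rw [hpg i i]
        exact hGc i i
      have h3 := ibp (hgd i) h2 hφ
      rw [hpg i i] at h3
      exact h3
    simp only [h1, Finset.sum_neg_distrib, mul_neg]
    have hφc := hφ.1.continuous
    have h4 : ∀ i, Integrable fun x => G i i x * φ x := fun i =>
      ((hGc i i).mul hφc).integrable_of_hasCompactSupport hφ.2.mul_left
    have h5 : ∑ i, pair (G i i) φ = ∫ x, (∑ i, G i i x) * φ x := by
      unfold pair
      rw [← integral_finset_sum _ fun i _ => h4 i]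
      refine integral_congr_ae (Filter.Eventually.of_forall fun x => ?_)
      simp only [Finset.sum_mul]
    rw [h5, ← integral_const_mul]
    have h6 : (fun x => ((h ^ 2 : ℝ) : ℂ) * ((∑ i, G i i x) * φ x)) =
        fun x => (v ‖x‖ * u x) * φ x - (z * u x) * φ x := by
      funext x
      rw [← mul_assoc, hpde x]
      ring
    rw [h6]
    have h7 : Continuous fun x : E d => v ‖x‖ := hv.comp continuous_norm
    rw [integral_sub]
    · unfold pair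
      ring
    · exact ((h7.mul hud.continuous).mul hφc).integrable_of_hasCompactSupport hφ.2.mul_left
    · exact ((hud.continuous.const_mul z).mul hφc).integrable_of_hasCompactSupport hφ.2.mul_left

end Pool.Agent.K3h66.LT
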